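import Mathlib

set_option autoImplicit false

/-! # Continuants over finite fields -/

namespace Pool.Agent.U642.CT

open Finset

/-- The continuant of the section `v a, v (a + 1), …, v (a + l - 1)` of the sequence `v`. -/
def K {R : Type} [CommRing R] (v : ℕ → R) (a : ℕ) : ℕ → R
  | 0 => 1
  | 1 => v a
  | l + 2 => v (a + l + 1) * K v a (l + 1) + K v a l

/-- a finite vector as a sequence -/
def ext {R : Type} [CommRing R] {n : ℕ} (x : Fin n → R) (i : ℕ) : R := if h : i < n then x ⟨i, h⟩ else 0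

section

variable {R : Type} [CommRing R]

lemma K_zero (v : ℕ → R) (a : ℕ) : K v a 0 = 1 := rfl
lemma K_one (v : ℕ → R) (a : ℕ) : K v a 1 = v a := rfl
lemma K_two (v : ℕ → R) (a l : ℕ) : K v a (l + 2) = v (a + l + 1) * K v a (l + 1) + K v a l := rfl

lemma K_left (v : ℕ → R) (a : ℕ) : ∀ l : ℕ, K v a (l + 2) = v a * K v (a + 1) (l + 1) + K v (a + 2) l
  | 0 => by
    show v (a + 0 + 1) * v a + 1 = v a * v (a + 1) + 1
    ring
  | 1 => by
    show v (a + 1 + 1) * (v (a + 0 + 1) * v a + 1) + v a =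
      v a * (v (a + 1 + 0 + 1) * v (a + 1) + 1) + v (a + 2)
    have e1 : a + 1 + 0 + 1 = a + 1 + 1 := by ring
    have e2 : a + 0 + 1 = a + 1 := by ring
    have e3 : a + 2 = a + 1 + 1 := by ring
    rw [e1, e2, e3]
    ring
  | l + 2 => by
    have h1 := K_left v a (l + 1)
    have h2 := K_left v a l
    have h3 : K v a (l + 2 + 2) = v (a + (l + 2) + 1) * K v a (l + 1 + 2) + K v a (l + 2) := rfl
    have h4 : K v (a + 1) (l + 2 + 1) = v (a + 1 + (l + 1) + 1) * K v (a + 1) (l + 1 + 1) +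
      K v (a + 1) (l + 1) := rfl
    have h5 : K v (a + 2) (l + 2) = v (a + 2 + l + 1) * K v (a + 2) (l + 1) + K v (a + 2) l := rfl
    have e1 : a + 1 + (l + 1) + 1 = a + (l + 2) + 1 := by ring
    have e2 : a + 2 + l + 1 = a + (l + 2) + 1 := by ring
    rw [h3, h4, h5, h1, h2, e1, e2]
    ring

lemma K_congr (v w : ℕ → R) (a : ℕ) : ∀ l : ℕ, (∀ i, a ≤ i → i < a + l → v i = w i) →
    K v a l = K w a l
  | 0, _ => rfl
  | 1, h => h a le_rfl (by omega)
  | l + 2, h => by
    rw [K_two, K_two, h (a + l + 1) (by omega) (by omega),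
      K_congr v w a (l + 1) (fun i h1 h2 => h i h1 (by omega)),
      K_congr v w a l (fun i h1 h2 => h i h1 (by omega))]

lemma K_not_both [Nontrivial R] (v : ℕ → R) (a : ℕ) : ∀ l : ℕ, K v a (l + 1) = 0 → K v a l ≠ 0
  | 0, _ => one_ne_zero
  | l + 1, h => by
    intro h2
    rw [K_two, h2, mul_zero, zero_add] at h
    exact K_not_both v a l h2 h

lemma K_not_both_left [Nontrivial R] (v : ℕ → R) : ∀ (l a : ℕ), K v a (l + 1) = 0 → K v (a + 1) l ≠ 0
  | 0, _, _ => one_ne_zero
  | l + 1, a, h => by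
    intro h2
    rw [K_left, h2, mul_zero, zero_add] at h
    exact K_not_both_left v l (a + 1) h2 h

lemma K_map {S : Type} [CommRing S] (φ : R →+* S) (v : ℕ → R) (a : ℕ) : ∀ l : ℕ,
    φ (K v a l) = K (fun i => φ (v i)) a l
  | 0 => map_one φ
  | 1 => rfl
  | l + 2 => by
    rw [K_two, K_two, map_add, map_mul, K_map φ v a (l + 1), K_map φ v a l]

lemma ext_map {S : Type} [CommRing S] (φ : R →+* S) {n : ℕ} (x : Fin n → R) (i : ℕ) :
    φ (ext x i) = ext (fun j => φ (x j)) i := by
  unfold ext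
  split_ifs
  · rfl
  · exact map_zero φ

lemma ext_update {n : ℕ} (x : Fin n → R) (m : Fin n) (t : R) (i : ℕ) (h : i ≠ m) :
    ext (Function.update x m t) i = ext x i := by
  unfold ext
  split_ifs with h1
  · rw [Function.update_of_ne]
    intro h2
    apply h
    rw [← h2]
  · rfl

end

section

variable {p : ℕ} [Fact p.Prime] {n : ℕ}

/-- the number of the points with a property -/
noncomputable def N (Q : (Fin n → ZMod p) → Prop) : ℕ := Nat.card {x : Fin n → ZMod p // Q x}

lemma N_mono (P Q : (Fin n → ZMod p) → Prop) (h : ∀ x, P x → Q x) : N P ≤ N Q :=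
  Nat.card_le_card_of_injective (fun x : {x // P x} => (⟨x.1, h _ x.2⟩ : {x // Q x}))
    (fun a b hab => Subtype.ext (congrArg (fun z => z.1) hab))

lemma N_congr (P Q : (Fin n → ZMod p) → Prop) (h : ∀ x, P x ↔ Q x) : N P = N Q :=
  le_antisymm (N_mono P Q fun x => (h x).1) (N_mono Q P fun x => (h x).2)

lemma N_empty (P : (Fin n → ZMod p) → Prop) (h : ∀ x, ¬ P x) : N P = 0 := by
  unfold N
  rw [Nat.card_eq_zero]
  left
  exact ⟨fun x => h _ x.2⟩

lemma N_true (P : (Fin n → ZMod p) → Prop) (h : ∀ x, P x) : N P = p ^ n := by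
  unfold N
  rw [Nat.card_congr (Equiv.subtypeUnivEquiv h), Nat.card_eq_fintype_card, Fintype.card_fun,
    ZMod.card, Fintype.card_fin]

lemma N_split (P Q : (Fin n → ZMod p) → Prop) :
    N P = N (fun x => Q x ∧ P x) + N (fun x => ¬ Q x ∧ P x) := by
  classical
  unfold N
  simp only [Nat.card_eq_fintype_card, Fintype.card_subtype]
  rw [← Finset.card_filter_add_card_filter_not (s := univ.filter P) Q, filter_filter, filter_filter]
  congr 1
  · congr 1
    ext x
    simp only [mem_filter, mem_univ, true_and]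
    tauto
  · congr 1
    ext x
    simp only [mem_filter, mem_univ, true_and]
    tauto

/-- linear equations in one variable -/
lemma lin_count (m : Fin n) (A B : (Fin n → ZMod p) → ZMod p) (G : (Fin n → ZMod p) → Prop)
    (hA : ∀ x t, A (Function.update x m t) = A x) (hB : ∀ x t, B (Function.update x m t) = B x)
    (hG : ∀ x t, G (Function.update x m t) ↔ G x) (r : ZMod p) :
    p * N (fun x => x m * A x + B x = r ∧ G x) =
      N (fun x => A x ≠ 0 ∧ G x) + p * N (fun x => A x = 0 ∧ B x = r ∧ G x) := by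
  classical
  have h1 := N_split (fun x => x m * A x + B x = r ∧ G x) (fun x => A x = 0)
  have h2 : N (fun x => A x = 0 ∧ (x m * A x + B x = r ∧ G x)) =
      N (fun x => A x = 0 ∧ B x = r ∧ G x) := by
    apply N_congr
    intro x
    constructor
    · rintro ⟨h, h', h''⟩
      rw [h, mul_zero, zero_add] at h'
      exact ⟨h, h', h''⟩
    · rintro ⟨h, h', h''⟩
      refine ⟨h, ?_, h''⟩
      rw [h, mul_zero, zero_add]
      exact h'
  have h3 : N (fun x => A x ≠ 0 ∧ G x) =
      p * N (fun x => ¬ A x = 0 ∧ (x m * A x + B x = r ∧ G x)) := by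
    have e : {x : Fin n → ZMod p // A x ≠ 0 ∧ G x} ≃
        ZMod p × {x : Fin n → ZMod p // ¬ A x = 0 ∧ (x m * A x + B x = r ∧ G x)} :=
      { toFun := fun x => (x.1 m, ⟨Function.update x.1 m ((r - B x.1) / A x.1), by
          rw [hA, hB, hG, Function.update_self]
          refine ⟨x.2.1, ?_, x.2.2⟩
          rw [div_mul_cancel₀ _ x.2.1]
          ring⟩)
        invFun := fun w => ⟨Function.update w.2.1 m w.1, by
          rw [hA, hG]
          exact ⟨w.2.2.1, w.2.2.2.2⟩⟩
        left_inv := by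
          intro x
          apply Subtype.ext
          simp
        right_inv := by
          rintro ⟨t, x, hx1, hx2, hx3⟩
          refine Prod.ext ?_ (Subtype.ext ?_)
          · simp
          · simp only [hA, hB, Function.update_idem]
            have : (r - B x) / A x = x m := by
              rw [div_eq_iff hx1, ← hx2]
              ring
            rw [this, Function.update_eq_self] }
    unfold N
    rw [Nat.card_congr e, Nat.card_prod, Nat.card_zmod]
  rw [h1, mul_add, h2, ← h3]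
  ring

/-- the value of the continuant `K a l` at `x` -/
def Kx (a l : ℕ) (x : Fin n → ZMod p) : ZMod p := K (ext x) a l

lemma Kx_update (a l : ℕ) (m : Fin n) (h : (m : ℕ) < a ∨ a + l ≤ m) (x : Fin n → ZMod p) (t : ZMod p) :
    Kx a l (Function.update x m t) = Kx a l x := by
  unfold Kx
  apply K_congr
  intro i h1 h2
  apply ext_update
  omega

lemma Kx_two (a l : ℕ) (h : a + l + 1 < n) (x : Fin n → ZMod p) :
    Kx a (l + 2) x = x ⟨a + l + 1, h⟩ * Kx a (l + 1) x + Kx a l x := by
  unfold Kx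
  rw [K_two]
  congr 2
  unfold ext
  rw [dif_pos h]

lemma Kx_left (a l : ℕ) (h : a < n) (x : Fin n → ZMod p) :
    Kx a (l + 2) x = x ⟨a, h⟩ * Kx (a + 1) (l + 1) x + Kx (a + 2) l x := by
  unfold Kx
  rw [K_left]
  congr 2
  unfold ext
  rw [dif_pos h]

lemma Kx_one (a : ℕ) (h : a < n) (x : Fin n → ZMod p) : Kx a 1 x = x ⟨a, h⟩ := by
  unfold Kx
  rw [K_one]
  unfold ext
  rw [dif_pos h]

/-- one variable and a condition on the others -/
lemma one_count (a : ℕ) (h : a < n) (r : ZMod p) (G : (Fin n → ZMod p) → Prop)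
    (hG : ∀ x t, G (Function.update x ⟨a, h⟩ t) ↔ G x) :
    p * N (fun x => Kx a 1 x = r ∧ G x) = N G := by
  have h1 := lin_count ⟨a, h⟩ (fun _ => (1 : ZMod p)) (fun _ => 0) G (fun _ _ => rfl) (fun _ _ => rfl)
    hG r
  have h2 : N (fun x : Fin n → ZMod p => (1 : ZMod p) = 0 ∧ (0 : ZMod p) = r ∧ G x) = 0 :=
    N_empty _ fun x hx => one_ne_zero hx.1
  rw [h2, mul_zero, add_zero] at h1
  rw [N_congr (fun x => Kx a 1 x = r ∧ G x) (fun x => x ⟨a, h⟩ * 1 + 0 = r ∧ G x) (fun x => by
    rw [Kx_one a h, mul_one, add_zero]), h1]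
  apply N_congr
  intro x
  simp

/-- the upper bound -/
lemma upper (a : ℕ) (r : ZMod p) : ∀ l : ℕ, a + (l + 1) ≤ n →
    p * N (fun x : Fin n → ZMod p => Kx a (l + 1) x = r) ≤ (l + 1) * p ^ n
  | 0, h => by
    have h1 := one_count (n := n) (p := p) a (by omega) r (fun _ => True) (fun _ _ => Iff.rfl)
    rw [N_true (fun _ => True) (fun _ => trivial)] at h1
    rw [zero_add, one_mul, ← h1]
    exact le_of_eq (congrArg _ (N_congr _ _ fun x => by simp))
  | l + 1, h => by
    have hm : a + l + 1 < n := by omega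
    have h1 := lin_count ⟨a + l + 1, hm⟩ (fun x => Kx a (l + 1) x) (fun x => Kx a l x) (fun _ => True)
      (fun x t => Kx_update a (l + 1) _ (Or.inr (by simp only; omega)) x t)
      (fun x t => Kx_update a l _ (Or.inr (by simp only; omega)) x t) (fun _ _ => Iff.rfl) r
    have h2 : N (fun x : Fin n → ZMod p => Kx a (l + 1 + 1) x = r) =
        N (fun x => x ⟨a + l + 1, hm⟩ * Kx a (l + 1) x + Kx a l x = r ∧ True) := by
      apply N_congr
      intro x
      rw [Kx_two a l hm, and_true]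
    rw [h2, h1]
    have h3 : N (fun x : Fin n → ZMod p => Kx a (l + 1) x ≠ 0 ∧ True) ≤ p ^ n := by
      rw [← N_true (p := p) (n := n) (fun _ => True) (fun _ => trivial)]
      exact N_mono _ _ fun _ _ => trivial
    have h4 : p * N (fun x : Fin n → ZMod p => Kx a (l + 1) x = 0 ∧ Kx a l x = r ∧ True) ≤
        p * N (fun x : Fin n → ZMod p => Kx a (l + 1) x = 0) :=
      Nat.mul_le_mul_left _ (N_mono _ _ fun x hx => hx.1)
    have h5 := upper a 0 l (by omega)
    calc _ ≤ p ^ n + (l + 1) * p ^ n := add_le_add h3 (h4.trans h5)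
      _ = (l + 1 + 1) * p ^ n := by ring

/-- consecutive continuants (right) -/
lemma consec (a l : ℕ) (h : a + (l + 2) ≤ n) (r : ZMod p) :
    p ^ 2 * N (fun x : Fin n → ZMod p => Kx a (l + 2) x = 0 ∧ Kx a (l + 1) x = r) ≤ (l + 1) * p ^ n := by
  have hm : a + l + 1 < n := by omega
  by_cases hr : r = 0
  · rw [N_empty, mul_zero]
    · exact Nat.zero_le _
    · rintro x ⟨h1, h2⟩
      rw [hr] at h2
      exact K_not_both (ext x) a (l + 1) h1 h2
  have h1 := lin_count ⟨a + l + 1, hm⟩ (fun x => Kx a (l + 1) x) (fun x => Kx a l x)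
      (fun x => Kx a (l + 1) x = r)
      (fun x t => Kx_update a (l + 1) _ (Or.inr (by simp only; omega)) x t)
      (fun x t => Kx_update a l _ (Or.inr (by simp only; omega)) x t)
      (fun x t => by rw [Kx_update a (l + 1) _ (Or.inr (by simp only; omega)) x t]) 0
  have h2 : N (fun x : Fin n → ZMod p => Kx a (l + 2) x = 0 ∧ Kx a (l + 1) x = r) =
      N (fun x => x ⟨a + l + 1, hm⟩ * Kx a (l + 1) x + Kx a l x = 0 ∧ Kx a (l + 1) x = r) := by
    apply N_congr
    intro x
    rw [Kx_two a l hm]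
  have h3 : N (fun x : Fin n → ZMod p => Kx a (l + 1) x = 0 ∧ Kx a l x = 0 ∧ Kx a (l + 1) x = r) = 0 := by
    apply N_empty
    rintro x ⟨h4, -, h5⟩
    exact hr (h5.symm.trans h4)
  rw [h3, mul_zero, add_zero] at h1
  rw [h2, sq, mul_assoc, h1]
  have h4 := upper a r l (by omega : a + (l + 1) ≤ n)
  refine le_trans (Nat.mul_le_mul_left _ (N_mono _ _ fun x hx => hx.2)) h4

/-- consecutive continuants (left) -/
lemma consec_left (a l : ℕ) (h : a + (l + 2) ≤ n) (r : ZMod p) :
    p ^ 2 * N (fun x : Fin n → ZMod p => Kx a (l + 2) x = 0 ∧ Kx (a + 1) (l + 1) x = r) ≤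
      (l + 1) * p ^ n := by
  have hm : a < n := by omega
  by_cases hr : r = 0
  · rw [N_empty, mul_zero]
    · exact Nat.zero_le _
    · rintro x ⟨h1, h2⟩
      rw [hr] at h2
      exact K_not_both_left (ext x) (l + 1) a h1 h2
  have h1 := lin_count ⟨a, hm⟩ (fun x => Kx (a + 1) (l + 1) x) (fun x => Kx (a + 2) l x)
      (fun x => Kx (a + 1) (l + 1) x = r)
      (fun x t => Kx_update (a + 1) (l + 1) _ (Or.inl (by simp only; omega)) x t)
      (fun x t => Kx_update (a + 2) l _ (Or.inl (by simp only; omega)) x t)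
      (fun x t => by rw [Kx_update (a + 1) (l + 1) _ (Or.inl (by simp only; omega)) x t]) 0
  have h2 : N (fun x : Fin n → ZMod p => Kx a (l + 2) x = 0 ∧ Kx (a + 1) (l + 1) x = r) =
      N (fun x => x ⟨a, hm⟩ * Kx (a + 1) (l + 1) x + Kx (a + 2) l x = 0 ∧ Kx (a + 1) (l + 1) x = r) := by
    apply N_congr
    intro x
    rw [Kx_left a l hm]
  have h3 : N (fun x : Fin n → ZMod p => Kx (a + 1) (l + 1) x = 0 ∧ Kx (a + 2) l x = 0 ∧
      Kx (a + 1) (l + 1) x = r) = 0 := by
    apply N_empty
    rintro x ⟨h4, -, h5⟩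
    exact hr (h5.symm.trans h4)
  rw [h3, mul_zero, add_zero] at h1
  rw [h2, sq, mul_assoc, h1]
  have h4 := upper (a + 1) r l (by omega : a + 1 + (l + 1) ≤ n)
  refine le_trans (Nat.mul_le_mul_left _ (N_mono _ _ fun x hx => hx.2)) h4

/-- the values are equidistributed, except for the value `1` of the continuants of length `2` -/
lemma equi (a l : ℕ) (h : a + (l + 1) ≤ n) (r : ZMod p) (hr : l = 1 → r ≠ 1) :
    |(p : ℝ) * (N (fun x : Fin n → ZMod p => Kx a (l + 1) x = r) : ℝ) - (p : ℝ) ^ n| * p ≤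
      (n : ℝ) * (p : ℝ) ^ n := by
  rcases l with _ | l
  · have h1 := one_count (n := n) (p := p) a (by omega) r (fun _ => True) (fun _ _ => Iff.rfl)
    rw [N_true (fun _ => True) (fun _ => trivial)] at h1
    have h2 : N (fun x : Fin n → ZMod p => Kx a 1 x = r ∧ True) =
        N (fun x : Fin n → ZMod p => Kx a 1 x = r) := N_congr _ _ fun x => by simp
    rw [h2] at h1
    have h3 : (p : ℝ) * (N (fun x : Fin n → ZMod p => Kx a 1 x = r) : ℝ) = (p : ℝ) ^ n := by
      exact_mod_cast h1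
    rw [zero_add, h3, sub_self, abs_zero, zero_mul]
    positivity
  · have hm : a + l + 1 < n := by omega
    have h1 := lin_count ⟨a + l + 1, hm⟩ (fun x => Kx a (l + 1) x) (fun x => Kx a l x) (fun _ => True)
      (fun x t => Kx_update a (l + 1) _ (Or.inr (by simp only; omega)) x t)
      (fun x t => Kx_update a l _ (Or.inr (by simp only; omega)) x t) (fun _ _ => Iff.rfl) r
    have h2 : N (fun x : Fin n → ZMod p => Kx a (l + 1 + 1) x = r) =
        N (fun x => x ⟨a + l + 1, hm⟩ * Kx a (l + 1) x + Kx a l x = r ∧ True) := by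
      apply N_congr
      intro x
      rw [Kx_two a l hm, and_true]
    rw [← h2] at h1
    have h3 := N_split (fun _ : Fin n → ZMod p => True) (fun x => Kx a (l + 1) x = 0)
    rw [N_true (fun _ => True) (fun _ => trivial)] at h3
    have h3' : N (fun x : Fin n → ZMod p => Kx a (l + 1) x = 0 ∧ True) =
        N (fun x : Fin n → ZMod p => Kx a (l + 1) x = 0) := N_congr _ _ fun x => by simp
    rw [h3'] at h3
    have h4 := upper (n := n) (p := p) a 0 l (by omega)
    have h5 : p ^ 2 * N (fun x : Fin n → ZMod p => Kx a (l + 1) x = 0 ∧ Kx a l x = r ∧ True) ≤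
        n * p ^ n := by
      rcases l with _ | l
      · rw [N_empty, mul_zero]
        · exact Nat.zero_le _
        · rintro x ⟨-, h6, -⟩
          exact hr rfl h6.symm
      · have h6 : N (fun x : Fin n → ZMod p => Kx a (l + 1 + 1) x = 0 ∧ Kx a (l + 1) x = r ∧ True) =
            N (fun x : Fin n → ZMod p => Kx a (l + 2) x = 0 ∧ Kx a (l + 1) x = r) :=
          N_congr _ _ fun x => by simp
        rw [h6]
        refine (consec a l (by omega) r).trans ?_
        exact Nat.mul_le_mul_right _ (by omega)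
    have e1 : (p : ℝ) * (N (fun x : Fin n → ZMod p => Kx a (l + 1 + 1) x = r) : ℝ) =
        (N (fun x : Fin n → ZMod p => Kx a (l + 1) x ≠ 0 ∧ True) : ℝ) +
        p * (N (fun x : Fin n → ZMod p => Kx a (l + 1) x = 0 ∧ Kx a l x = r ∧ True) : ℝ) := by
      exact_mod_cast h1
    have e2 : (p : ℝ) ^ n = (N (fun x : Fin n → ZMod p => Kx a (l + 1) x = 0) : ℝ) +
        (N (fun x : Fin n → ZMod p => ¬ Kx a (l + 1) x = 0 ∧ True) : ℝ) := by
      exact_mod_cast h3
    have e3 : (p : ℝ) * (N (fun x : Fin n → ZMod p => Kx a (l + 1) x = 0) : ℝ) ≤ (l + 1) * (p : ℝ) ^ n := by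
      exact_mod_cast h4
    have e4 : (p : ℝ) ^ 2 *
        (N (fun x : Fin n → ZMod p => Kx a (l + 1) x = 0 ∧ Kx a l x = r ∧ True) : ℝ) ≤
        n * (p : ℝ) ^ n := by
      exact_mod_cast h5
    have hp0 : (0 : ℝ) ≤ p := Nat.cast_nonneg _
    have hln : ((l : ℝ) + 1) ≤ n := by exact_mod_cast (by omega : l + 1 ≤ n)
    have hpn : (0 : ℝ) ≤ (p : ℝ) ^ n := by positivity
    have e5 : ((l : ℝ) + 1) * (p : ℝ) ^ n ≤ n * (p : ℝ) ^ n := mul_le_mul_of_nonneg_right hln hpn
    have hN1 : (0 : ℝ) ≤ p * (N (fun x : Fin n → ZMod p => Kx a (l + 1) x = 0) : ℝ) := by positivity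
    have hN2 : (0 : ℝ) ≤ (p : ℝ) ^ 2 *
        (N (fun x : Fin n → ZMod p => Kx a (l + 1) x = 0 ∧ Kx a l x = r ∧ True) : ℝ) := by positivity
    rw [e1]
    have e6 : (N (fun x : Fin n → ZMod p => Kx a (l + 1) x ≠ 0 ∧ True) : ℝ) +
        p * (N (fun x : Fin n → ZMod p => Kx a (l + 1) x = 0 ∧ Kx a l x = r ∧ True) : ℝ) -
        (p : ℝ) ^ n = p * (N (fun x : Fin n → ZMod p => Kx a (l + 1) x = 0 ∧ Kx a l x = r ∧ True) : ℝ) -
        (N (fun x : Fin n → ZMod p => Kx a (l + 1) x = 0) : ℝ) := by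
      rw [e2]
      ring
    rw [e6, ← abs_of_nonneg hp0, ← abs_mul, abs_of_nonneg hp0, abs_le]
    constructor
    · nlinarith
    · nlinarith

/-- pairs, if the right end of the first section is not in the second section -/
lemma pair_right (a l b k : ℕ) (h : a + (l + 1) ≤ n) (h' : b + (k + 1) ≤ n)
    (hend : a + l < b ∨ b + (k + 1) ≤ a + l) (r s : ZMod p) (hr : l = 1 → r ≠ 1) :
    p ^ 2 * N (fun x : Fin n → ZMod p => Kx a (l + 1) x = r ∧ Kx b (k + 1) x = s) ≤
      2 * n * p ^ n := by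
  have hU := upper (n := n) (p := p) b s k h'
  have hkn : (k + 1) * p ^ n ≤ n * p ^ n := Nat.mul_le_mul_right _ (by omega)
  rcases l with _ | l
  · have h1 := one_count (n := n) (p := p) a (by omega) r (fun x => Kx b (k + 1) x = s) (fun x t => by
      rw [Kx_update b (k + 1) _ (by simp only; omega) x t])
    rw [zero_add, sq, mul_assoc, h1]
    calc _ ≤ (k + 1) * p ^ n := hU
      _ ≤ n * p ^ n := hkn
      _ ≤ 2 * n * p ^ n := Nat.mul_le_mul_right _ (by omega)
  · have hm : a + l + 1 < n := by omega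
    have h1 := lin_count ⟨a + l + 1, hm⟩ (fun x => Kx a (l + 1) x) (fun x => Kx a l x)
      (fun x => Kx b (k + 1) x = s)
      (fun x t => Kx_update a (l + 1) _ (Or.inr (by simp only; omega)) x t)
      (fun x t => Kx_update a l _ (Or.inr (by simp only; omega)) x t)
      (fun x t => by rw [Kx_update b (k + 1) _ (by simp only; omega) x t]) r
    have h2 : N (fun x : Fin n → ZMod p => Kx a (l + 1 + 1) x = r ∧ Kx b (k + 1) x = s) =
        N (fun x => x ⟨a + l + 1, hm⟩ * Kx a (l + 1) x + Kx a l x = r ∧ Kx b (k + 1) x = s) := by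
      apply N_congr
      intro x
      rw [Kx_two a l hm]
    rw [h2, sq, mul_assoc, h1, mul_add]
    have h3 : p * N (fun x : Fin n → ZMod p => Kx a (l + 1) x ≠ 0 ∧ Kx b (k + 1) x = s) ≤ n * p ^ n :=
      (Nat.mul_le_mul_left _ (N_mono _ _ fun x hx => hx.2)).trans (hU.trans hkn)
    have h4 : p * (p * N (fun x : Fin n → ZMod p => Kx a (l + 1) x = 0 ∧ Kx a l x = r ∧
        Kx b (k + 1) x = s)) ≤ n * p ^ n := by
      rcases l with _ | l
      · rw [N_empty, mul_zero, mul_zero]
        · exact Nat.zero_le _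
        · rintro x ⟨-, h6, -⟩
          exact hr rfl h6.symm
      · rw [← mul_assoc, ← sq]
        refine (Nat.mul_le_mul_left _ (N_mono _ _ fun x hx => ⟨hx.1, hx.2.1⟩)).trans
          ((consec a l (by omega) r).trans ?_)
        exact Nat.mul_le_mul_right _ (by omega)
    calc _ ≤ n * p ^ n + n * p ^ n := add_le_add h3 h4
      _ = 2 * n * p ^ n := by ring

/-- pairs, if the left end of the first section is not in the second section -/
lemma pair_left (a l b k : ℕ) (h : a + (l + 1) ≤ n) (h' : b + (k + 1) ≤ n)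
    (hend : a < b ∨ b + (k + 1) ≤ a) (r s : ZMod p) (hr : l = 1 → r ≠ 1) :
    p ^ 2 * N (fun x : Fin n → ZMod p => Kx a (l + 1) x = r ∧ Kx b (k + 1) x = s) ≤
      2 * n * p ^ n := by
  have hU := upper (n := n) (p := p) b s k h'
  have hkn : (k + 1) * p ^ n ≤ n * p ^ n := Nat.mul_le_mul_right _ (by omega)
  rcases l with _ | l
  · have h1 := one_count (n := n) (p := p) a (by omega) r (fun x => Kx b (k + 1) x = s) (fun x t => by
      rw [Kx_update b (k + 1) _ (by simp only; omega) x t])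
    rw [zero_add, sq, mul_assoc, h1]
    calc _ ≤ (k + 1) * p ^ n := hU
      _ ≤ n * p ^ n := hkn
      _ ≤ 2 * n * p ^ n := Nat.mul_le_mul_right _ (by omega)
  · have hm : a < n := by omega
    have h1 := lin_count ⟨a, hm⟩ (fun x => Kx (a + 1) (l + 1) x) (fun x => Kx (a + 2) l x)
      (fun x => Kx b (k + 1) x = s)
      (fun x t => Kx_update (a + 1) (l + 1) _ (Or.inl (by simp only; omega)) x t)
      (fun x t => Kx_update (a + 2) l _ (Or.inl (by simp only; omega)) x t)
      (fun x t => by rw [Kx_update b (k + 1) _ (by simp only; omega) x t]) r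
    have h2 : N (fun x : Fin n → ZMod p => Kx a (l + 1 + 1) x = r ∧ Kx b (k + 1) x = s) =
        N (fun x => x ⟨a, hm⟩ * Kx (a + 1) (l + 1) x + Kx (a + 2) l x = r ∧ Kx b (k + 1) x = s) := by
      apply N_congr
      intro x
      rw [Kx_left a l hm]
    rw [h2, sq, mul_assoc, h1, mul_add]
    have h3 : p * N (fun x : Fin n → ZMod p => Kx (a + 1) (l + 1) x ≠ 0 ∧ Kx b (k + 1) x = s) ≤
        n * p ^ n :=
      (Nat.mul_le_mul_left _ (N_mono _ _ fun x hx => hx.2)).trans (hU.trans hkn)
    have h4 : p * (p * N (fun x : Fin n → ZMod p => Kx (a + 1) (l + 1) x = 0 ∧ Kx (a + 2) l x = r ∧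
        Kx b (k + 1) x = s)) ≤ n * p ^ n := by
      rcases l with _ | l
      · rw [N_empty, mul_zero, mul_zero]
        · exact Nat.zero_le _
        · rintro x ⟨-, h6, -⟩
          exact hr rfl h6.symm
      · rw [← mul_assoc, ← sq]
        refine (Nat.mul_le_mul_left _ (N_mono _ _ fun x hx => ⟨hx.1, hx.2.1⟩)).trans
          ((consec_left (a + 1) l (by omega) r).trans ?_)
        exact Nat.mul_le_mul_right _ (by omega)
    calc _ ≤ n * p ^ n + n * p ^ n := add_le_add h3 h4
      _ = 2 * n * p ^ n := by ring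

end

end Pool.Agent.U642.CT
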