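import Pool.Agent.U642.CT.Cont
import Pool.Agent.U642.WP.Sol

set_option autoImplicit false

/-! # Continuants are a balanced family; boxes -/

namespace Pool.Agent.U642.CT

open Finset Filter MvPolynomial
open Pool.Agent.N647.FG (AP AP_one AP_card)
open Pool.Agent.W147.PS (ff ff_compare ev_pow)
open Pool.Agent.N542.PT (Crit WellDist Good Balanced crit_balanced)
open Pool.Agent.U642.WP (prod_pert crit_cnt)

/-- the sections `[a, a + l)` of `[0, n)` -/
abbrev Sec (n : ℕ) : Type := {w : Fin (n + 1) × Fin (n + 1) // 1 ≤ (w.2 : ℕ) ∧ (w.1 : ℕ) + w.2 ≤ n}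

/-- the continuants as polynomials -/
noncomputable def contF (n : ℕ) (w : Sec n) : MvPolynomial (Fin n) ℤ :=
  K (ext (X : Fin n → MvPolynomial (Fin n) ℤ)) w.1.1 w.1.2

lemma contF_eval {n : ℕ} (w : Sec n) (x : Fin n → ℤ) :
    eval x (contF n w) = K (ext x) w.1.1 w.1.2 := by
  unfold contF
  rw [K_map]
  congr 1
  funext i
  rw [ext_map]
  congr 1
  funext j
  exact eval_X j

lemma contF_aeval {n p : ℕ} [Fact p.Prime] (w : Sec n) (x : Fin n → ZMod p) :
    aeval x (contF n w) = Kx w.1.1 w.1.2 x := by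
  have h1 : aeval x (contF n w) = (aeval x : MvPolynomial (Fin n) ℤ →ₐ[ℤ] ZMod p).toRingHom
    (K (ext (X : Fin n → MvPolynomial (Fin n) ℤ)) w.1.1 w.1.2) := rfl
  rw [h1, K_map]
  unfold Kx
  congr 1
  funext i
  rw [ext_map]
  congr 1
  funext j
  exact aeval_X x j

/-- the exceptional values -/
def exc {n : ℕ} (w : Sec n) : Finset ℤ := if (w.1.2 : ℕ) = 2 then {1} else ∅

theorem cont_balanced (n : ℕ) : Balanced (contF n) (exc (n := n)) ∧
    ∀ w, ∀ k : ℤ, contF n w ≠ MvPolynomial.C k := by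
  constructor
  · refine ⟨0, 2 * n, 1, one_pos, fun p hp _ => ?_⟩
    have : Fact p.Prime := ⟨hp⟩
    have hp0 : (0 : ℝ) < p := by exact_mod_cast hp.pos
    have hexc : ∀ (w : Sec n) (l : ℕ), (w.1.2 : ℕ) = l + 1 → ∀ r : ZMod p,
        (∀ v ∈ exc w, r ≠ (v : ZMod p)) → l = 1 → r ≠ 1 := by
      intro w l hl r hr h1 h2
      refine hr 1 ?_ (by rw [h2]; simp)
      unfold exc
      rw [if_pos (by omega)]
      exact mem_singleton_self _
    constructor
    · intro w r hr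
      obtain ⟨l, hl⟩ : ∃ l : ℕ, (w.1.2 : ℕ) = l + 1 := ⟨(w.1.2 : ℕ) - 1, by have := w.2.1; omega⟩
      have h1 := equi (n := n) (p := p) (w.1.1 : ℕ) l (by have := w.2.2; omega) r (hexc w l hl r hr)
      have h2 : Nat.card {x : Fin n → ZMod p // aeval x (contF n w) = r} =
          N (fun x : Fin n → ZMod p => Kx (w.1.1 : ℕ) (l + 1) x = r) := by
        unfold N
        apply Nat.card_congr
        refine Equiv.subtypeEquivRight fun x => ?_
        rw [contF_aeval, hl]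
      rw [h2, Real.rpow_neg_one]
      rw [← div_eq_mul_inv, le_div_iff₀ hp0]
      refine h1.trans ?_
      apply mul_le_mul_of_nonneg_right _ (by positivity)
      have : (0 : ℝ) ≤ n := Nat.cast_nonneg n
      linarith
    · intro w w' hne r s hr hs
      obtain ⟨l, hl⟩ : ∃ l : ℕ, (w.1.2 : ℕ) = l + 1 := ⟨(w.1.2 : ℕ) - 1, by have := w.2.1; omega⟩
      obtain ⟨k, hk⟩ : ∃ k : ℕ, (w'.1.2 : ℕ) = k + 1 := ⟨(w'.1.2 : ℕ) - 1, by have := w'.2.1; omega⟩
      have ha := w.2.2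
      have hb := w'.2.2
      have h2 : Nat.card {x : Fin n → ZMod p // aeval x (contF n w) = r ∧ aeval x (contF n w') = s} =
          N (fun x : Fin n → ZMod p => Kx (w.1.1 : ℕ) (l + 1) x = r ∧
            Kx (w'.1.1 : ℕ) (k + 1) x = s) := by
        unfold N
        apply Nat.card_congr
        refine Equiv.subtypeEquivRight fun x => ?_
        rw [contF_aeval, contF_aeval, hl, hk]
      have h3 : Nat.card {x : Fin n → ZMod p // aeval x (contF n w) = r ∧ aeval x (contF n w') = s} =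
          N (fun x : Fin n → ZMod p => Kx (w'.1.1 : ℕ) (k + 1) x = s ∧
            Kx (w.1.1 : ℕ) (l + 1) x = r) := by
        rw [h2]
        exact N_congr _ _ fun x => and_comm
      have key : p ^ 2 * Nat.card {x : Fin n → ZMod p // aeval x (contF n w) = r ∧
          aeval x (contF n w') = s} ≤ 2 * n * p ^ n := by
        by_cases c1 : (w.1.1 : ℕ) + l < w'.1.1 ∨ (w'.1.1 : ℕ) + (k + 1) ≤ (w.1.1 : ℕ) + l
        · rw [h2]
          exact pair_right _ l _ k (by omega) (by omega) c1 r s (hexc w l hl r hr)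
        by_cases c2 : (w.1.1 : ℕ) < w'.1.1 ∨ (w'.1.1 : ℕ) + (k + 1) ≤ (w.1.1 : ℕ)
        · rw [h2]
          exact pair_left _ l _ k (by omega) (by omega) c2 r s (hexc w l hl r hr)
        by_cases c3 : (w'.1.1 : ℕ) + k < w.1.1 ∨ (w.1.1 : ℕ) + (l + 1) ≤ (w'.1.1 : ℕ) + k
        · rw [h3]
          exact pair_right _ k _ l (by omega) (by omega) c3 s r (hexc w' k hk s hs)
        by_cases c4 : (w'.1.1 : ℕ) < w.1.1 ∨ (w.1.1 : ℕ) + (l + 1) ≤ (w'.1.1 : ℕ)
        · rw [h3]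
          exact pair_left _ k _ l (by omega) (by omega) c4 s r (hexc w' k hk s hs)
        exfalso
        apply hne
        apply Subtype.ext
        apply Prod.ext
        · apply Fin.ext
          omega
        · apply Fin.ext
          omega
      exact_mod_cast key
  · intro w k hk
    obtain ⟨l, hl⟩ : ∃ l : ℕ, (w.1.2 : ℕ) = l + 1 := ⟨(w.1.2 : ℕ) - 1, by have := w.2.1; omega⟩
    obtain ⟨p, hpn, hp⟩ := Nat.exists_infinite_primes (n + 1)
    have : Fact p.Prime := ⟨hp⟩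
    have h1 := upper (n := n) (p := p) (w.1.1 : ℕ) (k : ZMod p) l (by have := w.2.2; omega)
    have h2 : N (fun x : Fin n → ZMod p => Kx (w.1.1 : ℕ) (l + 1) x = (k : ZMod p)) = p ^ n := by
      apply N_true
      intro x
      rw [← hl, ← contF_aeval, hk, aeval_C]
      rfl
    rw [h2] at h1
    have h3 := Nat.le_of_mul_le_mul_right h1 (pow_pos hp.pos n)
    have := w.2.2
    omega

open scoped Classical in
/-- **families satisfying the criterion, in boxes**, with a count -/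
theorem box_crit {ι : Type} (n : ℕ) (F : ι → MvPolynomial (Fin n) ℤ) (hF : Crit n F) (δ : ℝ)
    (hδ : 0 < δ) (hδ1 : δ ≤ 1) : ∃ κ : ℝ, 0 < κ ∧ ∀ᶠ X : ℝ in atTop,
    ∀ (M : Fin n → ℤ) (L : Fin n → ℕ), (∀ j, X ^ δ ≤ L j) →
      X ^ (-δ) * ∏ j, (L j : ℝ) ≤ (((Fintype.piFinset fun j => Ioc (M j) (M j + L j)).filter
        (fun x => Good F (κ * ff X) (X ^ δ) x)).card : ℝ) := by
  obtain ⟨δ₂, hδ₂⟩ : ∃ δ₂ : ℝ, δ₂ = δ / 2 := ⟨_, rfl⟩
  have hδ₂0 : 0 < δ₂ := by rw [hδ₂]; positivity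
  obtain ⟨κ, hκ, hcrit⟩ := crit_cnt n F hF δ₂ hδ₂0 (by linarith)
  refine ⟨κ, hκ, ?_⟩
  obtain ⟨θ, hθ⟩ : ∃ θ : ℝ, θ = δ₂ / (4 * n + 4) := ⟨_, rfl⟩
  have hn0 : (0 : ℝ) ≤ n := Nat.cast_nonneg _
  have hθ0 : 0 < θ := by rw [hθ]; positivity
  have hθe : θ * (4 * n + 4) = δ₂ := by rw [hθ]; field_simp
  have hθ1 : θ ≤ δ₂ / 4 := by nlinarith
  rw [← hθ] at hcrit
  filter_upwards [hcrit, ev_pow (θ - δ) (-δ₂) (2 ^ n) (by linarith),
    ev_pow (θ - δ) 0 1 (by linarith), eventually_gt_atTop (1 : ℝ)] with X g1 g2 g3 g4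
  intro M L hL
  have hX0 : (0 : ℝ) < X := by linarith
  have hmono : ∀ x y : ℝ, x ≤ y → X ^ x ≤ X ^ y := fun x y h =>
    Real.rpow_le_rpow_of_exponent_le g4.le h
  obtain ⟨s, hs⟩ : ∃ s : Finset (Fin n → ℤ), s = Fintype.piFinset fun j => Ioc (M j) (M j + L j) :=
    ⟨_, rfl⟩
  have hscard : (s.card : ℝ) = ∏ j, (L j : ℝ) := by
    rw [hs, Fintype.card_piFinset]
    push_cast
    refine prod_congr rfl fun j _ => ?_
    simp
  have hV0 : 0 ≤ ∏ j, (L j : ℝ) := prod_nonneg fun j _ => Nat.cast_nonneg _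
  have key := g1 (Fin n → ℤ) s (fun x => x) (by
    intro q hq hqX ρ
    have hqR : (1 : ℝ) ≤ q := by exact_mod_cast hq
    have hq0 : (0 : ℝ) < q := by linarith
    have e1 : s.filter (fun i => ∀ j, (q : ℤ) ∣ i j - ρ j) =
        Fintype.piFinset fun j => AP (M j) (L j) q (ρ j) := by
      ext x
      rw [hs]
      unfold AP
      simp only [mem_filter, Fintype.mem_piFinset]
      constructor
      · rintro ⟨h1, h2⟩ j
        exact ⟨h1 j, h2 j⟩
      · intro h
        exact ⟨fun j => (h j).1, fun j => (h j).2⟩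
    rw [e1, hscard, Fintype.card_piFinset]
    obtain ⟨η, hη⟩ : ∃ η : ℝ, η = X ^ (θ - δ) := ⟨_, rfl⟩
    have hη0 : 0 ≤ η := by rw [hη]; positivity
    have hη1 : η ≤ 1 := by rw [hη]; simpa using g3
    have h2 := prod_pert univ
      (fun j => ((AP (M j) (L j) q (ρ j)).card : ℝ))
      (fun j => (L j : ℝ) / q) η hη0 hη1 (fun j _ => by positivity) (fun j _ => by
        refine (AP_card (M j) (L j) q hq (ρ j)).trans ?_
        rw [hη, mul_div_assoc', one_le_div hq0]
        calc (q : ℝ) ≤ X ^ θ := hqX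
          _ = X ^ (θ - δ) * X ^ δ := by
              rw [← Real.rpow_add hX0]; congr 1; ring
          _ ≤ X ^ (θ - δ) * L j := by
              apply mul_le_mul_of_nonneg_left (hL j) (by positivity))
    rw [card_univ, Fintype.card_fin, prod_div_distrib, prod_const, card_univ, Fintype.card_fin] at h2
    push_cast
    refine h2.trans ?_
    have h3 : (∏ j, (L j : ℝ)) / (q : ℝ) ^ n ≤ ∏ j, (L j : ℝ) :=
      div_le_self hV0 (one_le_pow₀ hqR)
    have h4 : (2 ^ n - 1) * η ≤ X ^ (-δ₂) := by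
      rw [hη]
      refine le_trans ?_ g2
      apply mul_le_mul_of_nonneg_right _ (by positivity)
      linarith
    have h5 : 0 ≤ (2 ^ n - 1) * η := by
      apply mul_nonneg _ hη0
      have : (1 : ℝ) ≤ 2 ^ n := one_le_pow₀ (by norm_num)
      linarith
    calc (2 ^ n - 1) * η * ((∏ j, (L j : ℝ)) / (q : ℝ) ^ n) ≤ X ^ (-δ₂) * ∏ j, (L j : ℝ) := by
          apply mul_le_mul h4 h3 (by positivity) (by positivity)
      _ = _ := mul_comm _ _)
  rw [hscard] at key
  refine le_trans (mul_le_mul_of_nonneg_right (hmono _ _ (by linarith)) hV0) (key.trans ?_)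
  rw [Nat.cast_le, ← hs]
  apply card_le_card
  intro x hx
  rw [mem_filter] at hx ⊢
  refine ⟨hx.1, fun j m hm => ?_⟩
  obtain ⟨l, hl, hl2, hl3⟩ := hx.2 j m hm
  exact ⟨l, hl, hl2.trans (hmono _ _ (by linarith)), hl3⟩

/-- the record scale is smaller than all powers -/
lemma ff_up (c ε : ℝ) (hε : 0 < ε) : ∀ᶠ x : ℝ in atTop, c * ff x ≤ x ^ ε := by
  have t1 : Tendsto Real.log atTop atTop := Real.tendsto_log_atTop
  have t2 : Tendsto (fun M : ℝ => Real.log (Real.log M)) atTop atTop := t1.comp t1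
  have t3 : Tendsto (fun M : ℝ => Real.log (Real.log (Real.log M))) atTop atTop := t1.comp t2
  have t4 : Tendsto (fun M : ℝ => Real.log (Real.log (Real.log (Real.log M)))) atTop atTop :=
    t1.comp t3
  have h1 : ∀ᶠ x : ℝ in atTop, |c| * Real.log x ^ (4 : ℝ) ≤ x ^ ε := by
    have h2 : (fun x : ℝ => Real.log x ^ (4 : ℝ)) =o[atTop] fun x : ℝ => x ^ ε :=
      isLittleO_log_rpow_rpow_atTop (s := ε) 4 hε
    have h3 := (h2.const_mul_left |c|).def (show (0 : ℝ) < 1 by norm_num)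
    filter_upwards [h3, eventually_gt_atTop (1 : ℝ)] with x hx hx1
    have h4 : 0 ≤ Real.log x := Real.log_nonneg hx1.le
    rw [Real.norm_of_nonneg (by positivity), Real.norm_of_nonneg (by positivity), one_mul] at hx
    exact hx
  filter_upwards [h1, t1.eventually_ge_atTop 1, t2.eventually_ge_atTop 1, t3.eventually_ge_atTop 1,
    t4.eventually_ge_atTop 1] with x g0 g1 g2 g3 g4
  set L1 := Real.log x
  set L2 := Real.log L1
  set L3 := Real.log L2
  set L4 := Real.log L3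
  have a2 : L2 ≤ L1 := (Real.log_le_sub_one_of_pos (by linarith)).trans (by linarith)
  have a3 : L3 ≤ L2 := (Real.log_le_sub_one_of_pos (by linarith)).trans (by linarith)
  have a4 : L4 ≤ L3 := (Real.log_le_sub_one_of_pos (by linarith)).trans (by linarith)
  have h5 : ff x = L1 * L2 ^ 2 * L4 / L3 ^ 2 := rfl
  have h6 : ff x ≤ L1 ^ (4 : ℝ) := by
    rw [h5, show ((4 : ℝ)) = ((4 : ℕ) : ℝ) by norm_num, Real.rpow_natCast]
    have h7 : 1 ≤ L3 ^ 2 := one_le_pow₀ g3
    calc L1 * L2 ^ 2 * L4 / L3 ^ 2 ≤ L1 * L2 ^ 2 * L4 := div_le_self (by positivity) h7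
      _ ≤ L1 * L1 ^ 2 * L1 := by gcongr; linarith
      _ = L1 ^ 4 := by ring
  have h7 : 0 ≤ ff x := by
    rw [h5]
    positivity
  calc c * ff x ≤ |c| * ff x := mul_le_mul_of_nonneg_right (le_abs_self c) h7
    _ ≤ |c| * L1 ^ (4 : ℝ) := mul_le_mul_of_nonneg_left h6 (abs_nonneg c)
    _ ≤ x ^ ε := g0

end Pool.Agent.U642.CT
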